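import Mathlib

/-!
# Entire functions with given zeros, and the removal of the common zeros of entire functions
-/

set_option autoImplicit false

open Metric Filter Topology

namespace Pool.Agent.N459.JS

/-- infinite products of entire functions -/
lemma prod_entire (g : ℕ → ℂ → ℂ) (hd : ∀ n, Differentiable ℂ (g n))
    (hb : ∀ (n : ℕ) (z : ℂ), ‖z‖ ≤ n / 2 → ‖g n z‖ ≤ (1 / 2 : ℝ) ^ n) :
    Differentiable ℂ (fun z => ∏' n, (1 + g n z)) ∧ (∀ z, Multipliable (fun n => 1 + g n z)) ∧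
      ∀ z, (∀ n, 1 + g n z ≠ 0) → ∏' n, (1 + g n z) ≠ 0 := by
  have hsum : Summable (fun n : ℕ => (1 / 2 : ℝ) ^ n) := summable_geometric_two
  have key : ∀ ρ : ℝ, HasProdLocallyUniformlyOn (fun n z => 1 + g n z)
      (fun z => ∏' n, (1 + g n z)) (ball 0 ρ) := by
    intro ρ
    refine hsum.hasProdLocallyUniformlyOn_nat_one_add isOpen_ball ?_ fun n =>
      (hd n).continuous.continuousOn
    obtain ⟨N, hN⟩ := exists_nat_ge (2 * ρ)
    filter_upwards [eventually_ge_atTop N] with n hn z hz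
    apply hb
    have h1 : ‖z‖ < ρ := by simpa using hz
    have h2 : (N : ℝ) ≤ n := by exact_mod_cast hn
    linarith
  refine ⟨?_, ?_, ?_⟩
  · intro z
    have h1 : TendstoLocallyUniformlyOn (fun (s : Finset ℕ) z => ∏ n ∈ s, (1 + g n z))
        (fun z => ∏' n, (1 + g n z)) atTop (ball 0 (‖z‖ + 1)) :=
      hasProdLocallyUniformlyOn_iff_tendstoLocallyUniformlyOn.1 (key (‖z‖ + 1))
    have h2 : DifferentiableOn ℂ (fun z => ∏' n, (1 + g n z)) (ball 0 (‖z‖ + 1)) := by
      refine h1.differentiableOn (Eventually.of_forall fun s => ?_) isOpen_ball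
      refine Differentiable.differentiableOn ?_
      have : (fun z => ∏ n ∈ s, (1 + g n z)) = ∏ n ∈ s, (fun z => 1 + g n z) := by
        ext z; simp
      rw [this]
      exact Differentiable.finsetProd fun n _ => (differentiable_const _).add (hd n)
    exact h2.differentiableAt (isOpen_ball.mem_nhds (by simp))
  · intro z
    exact (key (‖z‖ + 1)).hasProd (by simp) |>.multipliable
  · intro z hz
    refine tprod_one_add_ne_zero_of_summable hz ?_
    obtain ⟨N, hN⟩ := exists_nat_ge (2 * ‖z‖)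
    refine (summable_nat_add_iff N).1 ?_
    refine Summable.of_nonneg_of_le (fun n => norm_nonneg _) (fun n => hb (n + N) z ?_)
      ((summable_nat_add_iff N).2 hsum)
    push_cast
    have : (0 : ℝ) ≤ n := Nat.cast_nonneg n
    linarith

/-- the elementary factors -/
noncomputable def EF (K : ℕ) (w : ℂ) : ℂ := (1 - w) * Complex.exp (-Complex.logTaylor (K + 1) (-w))

lemma logTaylor_diff (K : ℕ) : Differentiable ℂ (Complex.logTaylor K) := by
  unfold Complex.logTaylor
  fun_prop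

lemma EF_diff (K : ℕ) : Differentiable ℂ (EF K) := by
  unfold EF
  have := (logTaylor_diff (K + 1)).comp (differentiable_id.neg)
  exact ((differentiable_const _).sub differentiable_id).mul (this.neg.cexp)

lemma EF_exp (K : ℕ) {w : ℂ} (hw : ‖w‖ ≤ 1 / 2) : ∃ s : ℂ, EF K w = Complex.exp s ∧ ‖s‖ ≤ (1 / 2) ^ K := by
  refine ⟨Complex.log (1 + -w) - Complex.logTaylor (K + 1) (-w), ?_, ?_⟩
  · rw [Complex.exp_sub, Complex.exp_log]
    · unfold EF
      rw [Complex.exp_neg]
      ring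
    · intro h
      have h1 : w = 1 := by linear_combination -h
      rw [h1] at hw
      norm_num at hw
  · have h1 := Complex.norm_log_sub_logTaylor_le K (z := -w) (by rw [norm_neg]; linarith)
    rw [norm_neg] at h1
    refine h1.trans ?_
    have h2 : ‖w‖ ^ (K + 1) ≤ (1 / 2) ^ (K + 1) := pow_le_pow_left₀ (norm_nonneg _) hw _
    have h3 : (1 - ‖w‖)⁻¹ ≤ 2 := by
      rw [inv_le_comm₀ (by linarith) (by norm_num)]
      linarith
    have h4 : (0 : ℝ) ≤ (1 - ‖w‖)⁻¹ := inv_nonneg.2 (by linarith)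
    have h5 : (1 : ℝ) ≤ (K : ℝ) + 1 := by linarith [(Nat.cast_nonneg K : (0 : ℝ) ≤ K)]
    calc ‖w‖ ^ (K + 1) * (1 - ‖w‖)⁻¹ / ((K : ℝ) + 1) ≤ ‖w‖ ^ (K + 1) * (1 - ‖w‖)⁻¹ :=
          div_le_self (by positivity) h5
      _ ≤ (1 / 2) ^ (K + 1) * 2 := mul_le_mul h2 h3 h4 (by positivity)
      _ = (1 / 2) ^ K := by rw [pow_succ]; ring

/-- existence of good exponents -/
lemma exists_exponent (n : ℕ) (hn : 1 ≤ n) (Z : Finset ℂ) (hZ : ∀ a ∈ Z, (n : ℝ) ≤ ‖a‖)
    (m : ℂ → ℕ) : ∃ K : ℕ, ∀ z : ℂ, ‖z‖ ≤ n / 2 →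
      ‖∏ a ∈ Z, (EF K (z / a)) ^ m a - 1‖ ≤ (1 / 2 : ℝ) ^ n := by
  set M : ℝ := ∑ a ∈ Z, (m a : ℝ) with hM
  have hlim : Tendsto (fun K : ℕ => Real.exp (M * (1 / 2 : ℝ) ^ K) - 1) atTop (𝓝 0) := by
    have h1 : Tendsto (fun K : ℕ => M * (1 / 2 : ℝ) ^ K) atTop (𝓝 (M * 0)) :=
      (tendsto_pow_atTop_nhds_zero_of_lt_one (by norm_num) (by norm_num)).const_mul M
    rw [mul_zero] at h1
    have h2 := (Real.continuous_exp.tendsto 0).comp h1
    have h3 := h2.sub_const 1
    simpa using h3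
  have hpos : (0 : ℝ) < (1 / 2 : ℝ) ^ n := by positivity
  obtain ⟨K, hK1⟩ := (hlim.eventually (gt_mem_nhds hpos)).exists
  refine ⟨K, fun z hz => ?_⟩
  have hs : ∀ a : ℂ, ∃ s : ℂ, a ∈ Z → EF K (z / a) = Complex.exp s ∧ ‖s‖ ≤ (1 / 2) ^ K := by
    intro a
    by_cases ha : a ∈ Z
    · have h1 : ‖z / a‖ ≤ 1 / 2 := by
        rw [norm_div]
        have h3 := hZ a ha
        have h4 : (1 : ℝ) ≤ n := by exact_mod_cast hn
        rw [div_le_div_iff₀ (by linarith) (by norm_num)]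
        linarith
      obtain ⟨s, hs⟩ := EF_exp K h1
      exact ⟨s, fun _ => hs⟩
    · exact ⟨0, fun h => absurd h ha⟩
  choose s hs using hs
  have h1 : ∏ a ∈ Z, (EF K (z / a)) ^ m a = Complex.exp (∑ a ∈ Z, (m a : ℂ) * s a) := by
    rw [Complex.exp_sum]
    refine Finset.prod_congr rfl fun a ha => ?_
    rw [(hs a ha).1, Complex.exp_nat_mul]
  have h2 : ‖∑ a ∈ Z, (m a : ℂ) * s a‖ ≤ M * (1 / 2 : ℝ) ^ K := by
    refine (norm_sum_le _ _).trans ?_
    rw [hM, Finset.sum_mul]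
    refine Finset.sum_le_sum fun a ha => ?_
    rw [norm_mul, Complex.norm_natCast]
    exact mul_le_mul_of_nonneg_left (hs a ha).2 (Nat.cast_nonneg _)
  rw [h1]
  have h3 : ‖Complex.exp (∑ a ∈ Z, (m a : ℂ) * s a) - 1‖ ≤ Real.exp ‖∑ a ∈ Z, (m a : ℂ) * s a‖ - 1 := by
    have h5 := Complex.norm_exp_sub_sum_le_exp_norm_sub_sum (∑ a ∈ Z, (m a : ℂ) * s a) 1
    simpa using h5
  have h4 := Real.exp_le_exp.2 h2
  linarith

/-- the zeros of a holomorphic function in a disc are finite in number -/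
lemma finite_zeros {D : ℂ → ℂ} (hD : Differentiable ℂ D) (hne : ∃ z, D z ≠ 0) (r : ℝ) :
    {z | ‖z‖ ≤ r ∧ D z = 0}.Finite := by
  by_contra hinf
  have hinf : {z | ‖z‖ ≤ r ∧ D z = 0}.Infinite := hinf
  obtain ⟨z1, hz1, hacc⟩ := hinf.exists_accPt_of_subset_isCompact (isCompact_closedBall (0 : ℂ) r)
    (fun z hz => by simpa using hz.1)
  rw [accPt_iff_frequently_nhdsNE] at hacc
  have hfr : ∃ᶠ z in 𝓝[≠] z1, D z = 0 := hacc.mono fun z hz => hz.2
  have hz := (hD.differentiableOn.analyticOnNhd isOpen_univ).eqOn_zero_of_preconnected_of_frequently_eq_zero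
    isPreconnected_univ (Set.mem_univ z1) hfr
  obtain ⟨z, hz2⟩ := hne
  exact hz2 (hz (Set.mem_univ z))

/-- **Weierstrass.** Entire functions with given zeros. -/
theorem weier {D : ℂ → ℂ} (hD : Differentiable ℂ D) (hne : ∃ z, D z ≠ 0) (m : ℂ → ℕ)
    (hm : ∀ z, D z ≠ 0 → m z = 0) : ∃ q : ℂ → ℂ, Differentiable ℂ q ∧ ∀ a, ∃ v : ℂ → ℂ,
      Differentiable ℂ v ∧ v a ≠ 0 ∧ ∀ z, q z = (z - a) ^ m a * v z := by
  classical
  let Z : ℕ → Finset ℂ := fun n => (finite_zeros hD hne (n + 1)).toFinset.filter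
    (fun z => ⌊‖z‖⌋₊ = n)
  have hZ : ∀ n, ∀ a ∈ Z n, (n : ℝ) ≤ ‖a‖ := by
    intro n a ha
    have h1 := (Finset.mem_filter.1 ha).2
    rw [← h1]
    exact Nat.floor_le (norm_nonneg _)
  have hZm : ∀ a, D a = 0 → a ∈ Z ⌊‖a‖⌋₊ := by
    intro a ha
    refine Finset.mem_filter.2 ⟨?_, rfl⟩
    rw [Set.Finite.mem_toFinset]
    exact ⟨(Nat.lt_floor_add_one _).le, ha⟩
  have hZn : ∀ n, ∀ a ∈ Z n, ⌊‖a‖⌋₊ = n := fun n a ha => (Finset.mem_filter.1 ha).2
  -- exponents
  have hK : ∀ n : ℕ, ∃ K : ℕ, 1 ≤ n → ∀ z : ℂ, ‖z‖ ≤ n / 2 →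
      ‖∏ a ∈ Z n, (EF K (z / a)) ^ m a - 1‖ ≤ (1 / 2 : ℝ) ^ n := by
    intro n
    by_cases hn : 1 ≤ n
    · obtain ⟨K, h1⟩ := exists_exponent n hn (Z n) (hZ n) m
      exact ⟨K, fun _ => h1⟩
    · exact ⟨0, fun h => absurd h hn⟩
  choose K hK using hK
  -- the factors
  let fac : ℕ → ℂ → ℂ → ℂ := fun n a z => if n = 0 then z - a else EF (K n) (z / a)
  let hh : ℕ → ℂ → ℂ → ℂ := fun n a z => if n = 0 then 1 else
    -(1 / a) * Complex.exp (-Complex.logTaylor (K n + 1) (-(z / a)))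
  have hhd : ∀ n a, Differentiable ℂ (hh n a) := by
    intro n a
    by_cases hn : n = 0
    · simp only [hh, if_pos hn]; exact differentiable_const _
    · simp only [hh, if_neg hn]
      have h1 : Differentiable ℂ (fun z : ℂ => -(z / a)) := by fun_prop
      exact (((logTaylor_diff (K n + 1)).comp h1).neg.cexp).const_mul _
  have ha0 : ∀ n, n ≠ 0 → ∀ a ∈ Z n, a ≠ 0 := by
    intro n hn a ha h0
    have h1 := hZ n a ha
    have h2 : (1 : ℝ) ≤ n := by exact_mod_cast Nat.one_le_iff_ne_zero.2 hn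
    rw [h0, norm_zero] at h1
    linarith
  have hfac : ∀ n, ∀ a ∈ Z n, ∀ z, fac n a z = (z - a) * hh n a z := by
    intro n a ha z
    by_cases hn : n = 0
    · simp only [fac, hh, if_pos hn, mul_one]
    · simp only [fac, hh, if_neg hn, EF]
      have := ha0 n hn a ha
      field_simp
      ring
  have hh0 : ∀ n, ∀ a ∈ Z n, ∀ z, hh n a z ≠ 0 := by
    intro n a ha z
    by_cases hn : n = 0
    · simp only [hh, if_pos hn]; exact one_ne_zero
    · simp only [hh, if_neg hn]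
      have := ha0 n hn a ha
      exact mul_ne_zero (neg_ne_zero.2 (one_div_ne_zero this)) (Complex.exp_ne_zero _)
  have hfd : ∀ n, ∀ a ∈ Z n, Differentiable ℂ (fac n a) := by
    intro n a ha
    have : fac n a = fun z => (z - a) * hh n a z := funext (hfac n a ha)
    rw [this]
    exact (differentiable_id.sub_const a).mul (hhd n a)
  let Q : ℕ → ℂ → ℂ := fun n z => ∏ a ∈ Z n, (fac n a z) ^ m a
  have hQd : ∀ n, Differentiable ℂ (Q n) := by
    intro n
    have : Q n = ∏ a ∈ Z n, (fun z => (fac n a z) ^ m a) := by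
      ext z; simp [Q]
    rw [this]
    exact Differentiable.finsetProd fun a ha => (hfd n a ha).pow _
  have hQ0 : ∀ n z, z ∉ Z n → Q n z ≠ 0 := by
    intro n z hz
    simp only [Q]
    rw [Finset.prod_ne_zero_iff]
    intro a ha
    refine pow_ne_zero _ ?_
    rw [hfac n a ha]
    refine mul_ne_zero ?_ (hh0 n a ha z)
    rw [sub_ne_zero]
    rintro rfl
    exact hz ha
  let g : ℕ → ℂ → ℂ := fun n z => if n = 0 then 0 else Q n z - 1
  have hg : ∀ n, Differentiable ℂ (g n) := by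
    intro n
    by_cases hn : n = 0
    · simp only [g, if_pos hn]; exact differentiable_const _
    · simp only [g, if_neg hn]; exact (hQd n).sub_const 1
  have hgb : ∀ (n : ℕ) (z : ℂ), ‖z‖ ≤ n / 2 → ‖g n z‖ ≤ (1 / 2 : ℝ) ^ n := by
    intro n z hz
    by_cases hn : n = 0
    · simp only [g, if_pos hn, norm_zero]; positivity
    · simp only [g, if_neg hn, Q, fac]
      exact hK n (Nat.one_le_iff_ne_zero.2 hn) z hz
  obtain ⟨hF, hFm, _⟩ := prod_entire g hg hgb
  refine ⟨fun z => Q 0 z * ∏' n, (1 + g n z), (hQd 0).mul hF, fun a => ?_⟩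
  set n0 := ⌊‖a‖⌋₊ with hn0
  let g' : ℕ → ℂ → ℂ := fun i z => if i = n0 then 0 else g i z
  have hg' : ∀ i, Differentiable ℂ (g' i) := by
    intro i
    by_cases hi : i = n0
    · simp only [g', if_pos hi]; exact differentiable_const _
    · simp only [g', if_neg hi]; exact hg i
  have hgb' : ∀ (i : ℕ) (z : ℂ), ‖z‖ ≤ i / 2 → ‖g' i z‖ ≤ (1 / 2 : ℝ) ^ i := by
    intro i z hz
    by_cases hi : i = n0
    · simp only [g', if_pos hi, norm_zero]; positivity
    · simp only [g', if_neg hi]; exact hgb i z hz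
  obtain ⟨hF', hFm', hF0'⟩ := prod_entire g' hg' hgb'
  let Q' : ℂ → ℂ := fun z => if n0 = 0 then 1 else Q 0 z
  have hQ'd : Differentiable ℂ Q' := by
    by_cases hn : n0 = 0
    · simp only [Q', if_pos hn]; exact differentiable_const _
    · simp only [Q', if_neg hn]; exact hQd 0
  have hsplit : ∀ z, Q 0 z * ∏' n, (1 + g n z) = Q n0 z * (Q' z * ∏' i, (1 + g' i z)) := by
    intro z
    by_cases hn : n0 = 0
    · have h1 : ∀ i, g' i z = g i z := by
        intro i
        by_cases hi : i = n0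
        · simp only [g', if_pos hi, g]
          rw [if_pos (hi.trans hn)]
        · simp only [g', if_neg hi]
      simp only [Q', if_pos hn, h1, one_mul]
      rw [hn]
    · have h1 : Multipliable (Function.update (fun i => 1 + g i z) n0 1) := by
        refine (hFm' z).congr fun i => ?_
        by_cases hi : i = n0
        · subst hi; simp [g']
        · simp [g', hi]
      have h2 := Multipliable.tprod_eq_mul_tprod_ite' n0 h1
      rw [h2]
      have h3 : 1 + g n0 z = Q n0 z := by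
        simp only [g, if_neg hn]; ring
      have h4 : (∏' i, if i = n0 then (1 : ℂ) else 1 + g i z) = ∏' i, (1 + g' i z) := by
        refine tprod_congr fun i => ?_
        by_cases hi : i = n0
        · simp [g', hi]
        · simp [g', hi]
      rw [h3, h4]
      simp only [Q', if_neg hn]
      ring
  have hne' : ∀ i, i ≠ n0 → Q i a ≠ 0 := by
    intro i hi
    refine hQ0 i a fun ha => hi ?_
    rw [hn0]
    exact (hZn i a ha).symm
  have hrest : Q' a * ∏' i, (1 + g' i a) ≠ 0 := by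
    refine mul_ne_zero ?_ (hF0' a fun i => ?_)
    · by_cases hn : n0 = 0
      · simp only [Q', if_pos hn]; exact one_ne_zero
      · simp only [Q', if_neg hn]; exact hne' 0 (Ne.symm hn)
    · by_cases hi : i = n0
      · simp only [g', if_pos hi, add_zero]; exact one_ne_zero
      · simp only [g', if_neg hi, g]
        by_cases hi0 : i = 0
        · rw [if_pos hi0, add_zero]; exact one_ne_zero
        · rw [if_neg hi0]
          have := hne' i hi
          intro h
          apply this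
          linear_combination h
  by_cases hDa : D a = 0
  · have hmem := hZm a hDa
    rw [← hn0] at hmem
    refine ⟨fun z => ((hh n0 a z) ^ m a * ∏ b ∈ (Z n0).erase a, (fac n0 b z) ^ m b) *
      (Q' z * ∏' i, (1 + g' i z)), ?_, ?_, fun z => ?_⟩
    · refine Differentiable.mul (((hhd n0 a).pow _).mul ?_) (hQ'd.mul hF')
      have : (fun z => ∏ b ∈ (Z n0).erase a, (fac n0 b z) ^ m b) =
          ∏ b ∈ (Z n0).erase a, (fun z => (fac n0 b z) ^ m b) := by
        ext z; simp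
      rw [this]
      exact Differentiable.finsetProd fun b hb => (hfd n0 b (Finset.mem_of_mem_erase hb)).pow _
    · refine mul_ne_zero (mul_ne_zero (pow_ne_zero _ (hh0 n0 a hmem a)) ?_) hrest
      rw [Finset.prod_ne_zero_iff]
      intro b hb
      refine pow_ne_zero _ ?_
      rw [hfac n0 b (Finset.mem_of_mem_erase hb)]
      refine mul_ne_zero ?_ (hh0 n0 b (Finset.mem_of_mem_erase hb) a)
      rw [sub_ne_zero]
      exact (Finset.ne_of_mem_erase hb).symm
    · show Q 0 z * ∏' n, (1 + g n z) = _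
      rw [hsplit z]
      have h1 : Q n0 z = (z - a) ^ m a * ((hh n0 a z) ^ m a * ∏ b ∈ (Z n0).erase a, (fac n0 b z) ^ m b) := by
        simp only [Q]
        rw [← Finset.mul_prod_erase _ _ hmem, hfac n0 a hmem, mul_pow]
        ring
      rw [h1]
      ring
  · have hma := hm a hDa
    have hna : a ∉ Z n0 := by
      intro h
      have h1 := (Finset.mem_filter.1 h).1
      rw [Set.Finite.mem_toFinset] at h1
      exact hDa h1.2
    refine ⟨fun z => Q n0 z * (Q' z * ∏' i, (1 + g' i z)), (hQd n0).mul (hQ'd.mul hF'),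
      mul_ne_zero (hQ0 n0 a hna) hrest, fun z => ?_⟩
    rw [hma, pow_zero, one_mul]
    exact hsplit z

/-- the order of vanishing of a family of functions -/
lemma local_order {M : ℕ} (g : Fin (M + 1) → ℂ → ℂ) (hg : ∀ i, Differentiable ℂ (g i))
    (hne : ∃ i t, g i t ≠ 0) (a : ℂ) : ∃ (k : ℕ) (h : Fin (M + 1) → ℂ → ℂ),
      (∀ i, AnalyticAt ℂ (h i) a) ∧ (∀ i, ∀ᶠ z in 𝓝 a, g i z = (z - a) ^ k * h i z) ∧
      (∃ i, h i a ≠ 0) ∧ ∀ i, g i a ≠ 0 → k = 0 := by
  have han : ∀ i, AnalyticAt ℂ (g i) a := fun i => (hg i).analyticAt a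
  obtain ⟨i0, -, hi0⟩ := Finset.exists_min_image Finset.univ (fun i => analyticOrderAt (g i) a)
    ⟨0, Finset.mem_univ 0⟩
  obtain ⟨i1, t1, h1⟩ := hne
  have hfin1 : analyticOrderAt (g i1) a ≠ ⊤ := by
    intro htop
    rw [analyticOrderAt_eq_top] at htop
    exact h1 (((hg i1).differentiableOn.analyticOnNhd isOpen_univ).eqOn_zero_of_preconnected_of_eventuallyEq_zero
      isPreconnected_univ (Set.mem_univ a) htop (Set.mem_univ t1))
  have hfin : analyticOrderAt (g i0) a ≠ ⊤ := by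
    intro htop
    have := hi0 i1 (Finset.mem_univ _)
    rw [htop, top_le_iff] at this
    exact hfin1 this
  obtain ⟨k, hk⟩ := ENat.ne_top_iff_exists.1 hfin
  have hle : ∀ i, (k : ℕ∞) ≤ analyticOrderAt (g i) a := fun i => by
    rw [hk]
    exact hi0 i (Finset.mem_univ _)
  have hex : ∀ i, ∃ h : ℂ → ℂ, AnalyticAt ℂ h a ∧ ∀ᶠ z in 𝓝 a, g i z = (z - a) ^ k * h z := by
    intro i
    obtain ⟨h, h1, h2⟩ := (natCast_le_analyticOrderAt (han i)).1 (hle i)
    exact ⟨h, h1, h2⟩
  choose h hh1 hh2 using hex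
  refine ⟨k, h, hh1, hh2, ⟨i0, ?_⟩, ?_⟩
  · intro h0
    obtain ⟨v, hv1, hv2, hv3⟩ := ((han i0).analyticOrderAt_eq_natCast (n := k)).1 hk.symm
    -- compare `h i0` and `v`
    have hev : ∀ᶠ z in 𝓝[≠] a, h i0 z = v z := by
      filter_upwards [mem_nhdsWithin_of_mem_nhds (hh2 i0), mem_nhdsWithin_of_mem_nhds hv3,
        eventually_mem_nhdsWithin] with z hz1 hz2 hz3
      have hz1' : g i0 z = (z - a) ^ k * h i0 z := hz1
      have hz2' : g i0 z = (z - a) ^ k * v z := hz2
      have h4 : (z - a) ^ k ≠ 0 := pow_ne_zero _ (sub_ne_zero.2 hz3)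
      exact mul_left_cancel₀ h4 (hz1'.symm.trans hz2')
    have h5 := ((hh1 i0).frequently_eq_iff_eventually_eq hv1).1 hev.frequently
    have h6 := h5.self_of_nhds
    rw [h0] at h6
    exact hv2 h6.symm
  · intro i hi
    by_contra hk0
    have h7 := (hh2 i).self_of_nhds
    rw [sub_self, zero_pow hk0, zero_mul] at h7
    exact hi h7

/-- **Removal of the common zeros.** -/
theorem remove {M : ℕ} (g : Fin (M + 1) → ℂ → ℂ) (hg : ∀ i, Differentiable ℂ (g i))
    (hne : ∃ i t, g i t ≠ 0) : ∃ (q : ℂ → ℂ) (g' : Fin (M + 1) → ℂ → ℂ), Differentiable ℂ q ∧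
      (∀ i, Differentiable ℂ (g' i)) ∧ (∀ i t, g i t = q t * g' i t) ∧ ∀ t, ∃ i, g' i t ≠ 0 := by
  choose k h hh1 hh2 hh3 hh4 using local_order g hg hne
  obtain ⟨i1, t1, h1⟩ := hne
  obtain ⟨q, hq, hv⟩ := weier (hg i1) ⟨t1, h1⟩ k (fun z hz => hh4 z i1 hz)
  choose v hv1 hv2 hv3 using hv
  let g' : Fin (M + 1) → ℂ → ℂ := fun i t => h t i t / v t t
  have hkv : ∀ z, q z ≠ 0 → k z = 0 := by
    intro z hz
    by_contra hk
    apply hz
    rw [hv3 z z, sub_self, zero_pow hk, zero_mul]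
  have hloc : ∀ i a, ∀ᶠ z in 𝓝 a, g' i z = h a i z / v a z := by
    intro i a
    have e1 : ∀ᶠ z in 𝓝 a, v a z ≠ 0 := (hv1 a).continuous.continuousAt.eventually_ne (hv2 a)
    filter_upwards [e1, hh2 a i] with z hz1 hz2
    by_cases hza : z = a
    · rw [hza]
    · have h5 : q z ≠ 0 := by
        rw [hv3 a z]
        exact mul_ne_zero (pow_ne_zero _ (sub_ne_zero.2 hza)) hz1
      have h6 := hkv z h5
      have h7 := (hh2 z i).self_of_nhds
      rw [h6, pow_zero, one_mul] at h7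
      have h8 := hv3 z z
      rw [h6, pow_zero, one_mul] at h8
      have h9 : g' i z = g i z / q z := by
        simp only [g']
        rw [h7, h8]
      rw [h9, hz2, hv3 a z, mul_div_mul_left _ _ (pow_ne_zero _ (sub_ne_zero.2 hza))]
  refine ⟨q, g', hq, fun i a => ?_, fun i t => ?_, fun t => ?_⟩
  · have h5 : AnalyticAt ℂ (fun z => h a i z / v a z) a :=
      (hh1 a i).div ((hv1 a).analyticAt a) (hv2 a)
    exact (h5.congr (Filter.EventuallyEq.symm (hloc i a))).differentiableAt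
  · have h7 := (hh2 t i).self_of_nhds
    have h8 := hv3 t t
    rw [h7, h8]
    simp only [g']
    have := hv2 t
    field_simp
  · obtain ⟨i, hi⟩ := hh3 t
    exact ⟨i, div_ne_zero hi (hv2 t)⟩

end Pool.Agent.N459.JS
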