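import Pool.Agent.N115.JS.Stm
import Pool.Agent.N459.JS.Weier

/-!
# Project JS (helper115), part 6: entire curves and rational maps
-/

set_option autoImplicit false

open Pool.Agent.W602.GT
open Pool.Agent.Y221.BD (EntireCurve PseudoBrody)
open Pool.Agent.N115.JS (ConstCurve FibreCurves)
open Filter Topology

namespace Pool.Agent.N459.JS

/-- the elements of the function field are ratios of forms -/
lemma ratio {k L : Type} [Field k] [Field L] [Algebra k L] {M : ℕ} (ξ : Fin (M + 1) → L) (u : L)
    (hu : u ∈ coords k ξ) : ∃ (d : ℕ) (A B : MvPolynomial (Fin (M + 1)) k), A.IsHomogeneous d ∧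
      B.IsHomogeneous d ∧ val ξ B ≠ 0 ∧ val ξ A = val ξ B * u := by
  unfold coords at hu
  induction hu using IntermediateField.adjoin_induction with
  | mem x hx =>
    obtain ⟨i, j, hj, rfl⟩ := hx
    refine ⟨1, MvPolynomial.X i, MvPolynomial.X j, MvPolynomial.isHomogeneous_X _ _,
      MvPolynomial.isHomogeneous_X _ _, ?_, ?_⟩
    · simpa [val] using hj
    · simp only [val, MvPolynomial.aeval_X]
      field_simp
  | algebraMap c =>
    exact ⟨0, MvPolynomial.C c, 1, MvPolynomial.isHomogeneous_C _ _, MvPolynomial.isHomogeneous_one _ _,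
      by simp [val], by simp [val]⟩
  | add x y _ _ hx hy =>
    obtain ⟨d1, A1, B1, ha1, hb1, h1, e1⟩ := hx
    obtain ⟨d2, A2, B2, ha2, hb2, h2, e2⟩ := hy
    refine ⟨d1 + d2, A1 * B2 + B1 * A2, B1 * B2, (ha1.mul hb2).add (hb1.mul ha2), hb1.mul hb2, ?_, ?_⟩
    · simp only [val, map_mul] at *
      exact mul_ne_zero h1 h2
    · simp only [val, map_mul, map_add] at *
      rw [e1, e2]
      ring
  | inv x _ hx =>
    obtain ⟨d1, A1, B1, ha1, hb1, h1, e1⟩ := hx
    by_cases hx0 : x = 0
    · exact ⟨0, 0, 1, MvPolynomial.isHomogeneous_zero _ _ _, MvPolynomial.isHomogeneous_one _ _,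
        by simp [val], by simp [val, hx0]⟩
    · refine ⟨d1, B1, A1, hb1, ha1, ?_, ?_⟩
      · rw [e1]
        exact mul_ne_zero h1 hx0
      · rw [e1, mul_assoc, mul_inv_cancel₀ hx0, mul_one]
  | mul x y _ _ hx hy =>
    obtain ⟨d1, A1, B1, ha1, hb1, h1, e1⟩ := hx
    obtain ⟨d2, A2, B2, ha2, hb2, h2, e2⟩ := hy
    refine ⟨d1 + d2, A1 * A2, B1 * B2, ha1.mul ha2, hb1.mul hb2, ?_, ?_⟩
    · simp only [val, map_mul] at *
      exact mul_ne_zero h1 h2
    · simp only [val, map_mul] at *
      rw [e1, e2]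
      ring

/-- common denominators -/
lemma common {k L : Type} [Field k] [Field L] [Algebra k L] {M : ℕ} (ξ : Fin (M + 1) → L)
    (hξ : coords k ξ = ⊤) {n : ℕ} (u : Fin n → L) : ∃ (d : ℕ) (A : Fin n → MvPolynomial (Fin (M + 1)) k)
      (h : L), h ≠ 0 ∧ (∀ i, (A i).IsHomogeneous d) ∧ ∀ i, val ξ (A i) = h * u i := by
  choose d A B hA hB hB0 hAB using fun i => ratio (k := k) ξ (u i) (by rw [hξ]; exact IntermediateField.mem_top)
  refine ⟨∑ i, d i, fun i => A i * ∏ j ∈ Finset.univ.erase i, B j, ∏ i, val ξ (B i), ?_, fun i => ?_, fun i => ?_⟩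
  · exact Finset.prod_ne_zero_iff.2 fun i _ => hB0 i
  · have h1 := (hA i).mul (MvPolynomial.IsHomogeneous.prod (Finset.univ.erase i) B d fun j _ => hB j)
    rwa [Finset.add_sum_erase Finset.univ d (Finset.mem_univ i)] at h1
  · have h1 : val ξ (A i * ∏ j ∈ Finset.univ.erase i, B j) =
        val ξ (A i) * ∏ j ∈ Finset.univ.erase i, val ξ (B j) := by
      simp only [val, map_mul, map_prod]
    rw [h1, hAB i, ← Finset.mul_prod_erase Finset.univ (fun i => val ξ (B i)) (Finset.mem_univ i)]
    ring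

lemma eval_hol {M : ℕ} (f : Fin (M + 1) → ℂ → ℂ) (hf : ∀ i, Differentiable ℂ (f i))
    (G : MvPolynomial (Fin (M + 1)) ℂ) : Differentiable ℂ (fun t => MvPolynomial.eval (fun i => f i t) G) := by
  induction G using MvPolynomial.induction_on with
  | C a => simp only [MvPolynomial.eval_C]; exact differentiable_const _
  | add p q hp hq => simp only [map_add]; exact hp.add hq
  | mul_X p i hp => simp only [map_mul, MvPolynomial.eval_X]; exact hp.mul (hf i)

/-- scaling -/
lemma aeval_scale {k K : Type} [Field k] [Field K] [Algebra k K] {M e : ℕ}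
    {G : MvPolynomial (Fin (M + 1)) k} (hG : G.IsHomogeneous e) (c : K) (x : Fin (M + 1) → K) :
    MvPolynomial.aeval (fun i => c * x i) G = c ^ e * MvPolynomial.aeval x G := by
  rw [MvPolynomial.aeval_def, MvPolynomial.aeval_def, MvPolynomial.eval₂_eq, MvPolynomial.eval₂_eq,
    Finset.mul_sum]
  refine Finset.sum_congr rfl fun s hs => ?_
  have h1 : ∑ i ∈ s.support, s i = e := by
    have := hG (MvPolynomial.mem_support_iff.1 hs)
    rw [← this, Finsupp.weight_apply]
    simp [Finsupp.sum]
  have h2 : ∏ i ∈ s.support, (c * x i) ^ s i = c ^ e * ∏ i ∈ s.support, x i ^ s i := by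
    simp only [mul_pow]
    rw [Finset.prod_mul_distrib, Finset.prod_pow_eq_pow_sum, h1]
  rw [h2]
  ring

lemma eval_scale {M e : ℕ} {G : MvPolynomial (Fin (M + 1)) ℂ} (hG : G.IsHomogeneous e) (c : ℂ)
    (x : Fin (M + 1) → ℂ) :
    MvPolynomial.eval (fun i => c * x i) G = c ^ e * MvPolynomial.eval x G := by
  have := aeval_scale (k := ℂ) (K := ℂ) hG c x
  simpa [MvPolynomial.aeval_eq_eval] using this

lemma eval_comp {M M0 : ℕ} (A : Fin (M0 + 1) → MvPolynomial (Fin (M + 1)) ℂ)
    (G : MvPolynomial (Fin (M0 + 1)) ℂ) (p : Fin (M + 1) → ℂ) :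
    MvPolynomial.eval p (MvPolynomial.aeval A G) = MvPolynomial.eval (fun i => MvPolynomial.eval p (A i)) G := by
  induction G using MvPolynomial.induction_on with
  | C a => simp
  | add p q hp hq => simp only [map_add, hp, hq]
  | mul_X p i hp => simp only [map_mul, hp, MvPolynomial.eval_X, MvPolynomial.aeval_X]

lemma val_comp {L : Type} [Field L] [Algebra ℂ L] {M M0 : ℕ} (A : Fin (M0 + 1) → MvPolynomial (Fin (M + 1)) ℂ)
    (G : MvPolynomial (Fin (M0 + 1)) ℂ) (p : Fin (M + 1) → L) :
    val p (MvPolynomial.aeval A G) = val (fun i => val p (A i)) G := by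
  unfold val
  induction G using MvPolynomial.induction_on with
  | C a => simp
  | add p q hp hq => simp only [map_add, hp, hq]
  | mul_X p i hp => simp only [map_mul, hp, MvPolynomial.aeval_X]

lemma val_coe {L : Type} [Field L] [Algebra ℂ L] (L0 : IntermediateField ℂ L) {M0 : ℕ}
    (x : Fin (M0 + 1) → L0) (G : MvPolynomial (Fin (M0 + 1)) ℂ) :
    val (fun i => (x i : L)) G = ((val x G : L0) : L) := by
  unfold val
  have h := MvPolynomial.aeval_algebraMap_apply (R := ℂ) (A := L0) L x G
  exact h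

theorem fibreCurves : FibreCurves := by
  intro L _ _ L0 M M0 ξ x _ hξ hx hB
  obtain ⟨R0, ⟨e, hR0⟩, hR1, hR2⟩ := hB
  obtain ⟨i1, hi1⟩ : ∃ i, x i ≠ 0 := by
    by_contra hcon
    push Not at hcon
    exact hx (funext hcon)
  obtain ⟨d, A, h, hh, hA, hAx⟩ := common (k := ℂ) ξ hξ (fun i => (x i : L))
  have hvalG : ∀ (e' : ℕ) (G : MvPolynomial (Fin (M0 + 1)) ℂ), G.IsHomogeneous e' →
      val ξ (MvPolynomial.aeval A G) = h ^ e' * ((val x G : L0) : L) := by
    intro e' G hG
    rw [val_comp, ← val_coe]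
    have h1 : (fun i => val ξ (A i)) = fun i => h * (x i : L) := funext hAx
    rw [h1]
    exact aeval_scale hG h _
  refine ⟨A i1 * MvPolynomial.aeval A R0, A, d, h, ?_, ?_, hA, hh, hAx, ?_⟩
  · exact ⟨_, (hA i1).mul (hR0.aeval A hA)⟩
  · have h1 : val ξ (A i1 * MvPolynomial.aeval A R0) = val ξ (A i1) * val ξ (MvPolynomial.aeval A R0) := by
      simp only [val, map_mul]
    rw [h1, hvalG e R0 hR0, hAx i1]
    refine mul_ne_zero (mul_ne_zero hh ?_) (mul_ne_zero (pow_ne_zero _ hh) ?_)
    · simpa using hi1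
    · simpa using hR1
  · rintro f hf ⟨t0, ht0⟩
    set g : Fin (M0 + 1) → ℂ → ℂ := fun i t => MvPolynomial.eval (fun j => f j t) (A i) with hg
    have hgd : ∀ i, Differentiable ℂ (g i) := fun i => eval_hol f hf.hol (A i)
    have hevR : ∀ t, MvPolynomial.eval (fun j => f j t) (A i1 * MvPolynomial.aeval A R0) =
        g i1 t * MvPolynomial.eval (fun i => g i t) R0 := by
      intro t
      rw [map_mul, eval_comp]
    rw [hevR] at ht0
    have hne : ∃ i t, g i t ≠ 0 := ⟨i1, t0, left_ne_zero_of_mul ht0⟩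
    obtain ⟨q, g', hq, hg', hgq, hg0⟩ := remove g hgd hne
    have hq0 : q t0 ≠ 0 := by
      have := left_ne_zero_of_mul ht0
      rw [hgq] at this
      exact left_ne_zero_of_mul this
    by_contra hcon
    unfold ConstCurve at hcon
    push Not at hcon
    obtain ⟨t, t', i, j, hij⟩ := hcon
    have hcurve : EntireCurve x g' := by
      refine ⟨hg', hg0, ?_, ?_⟩
      · rintro G ⟨e', hG⟩ hGx s
        have h1 : ∀ s, q s ^ e' * MvPolynomial.eval (fun i => g' i s) G = 0 := by
          intro s
          rw [← eval_scale hG]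
          have h2 : (fun i => q s * g' i s) = fun i => g i s := funext fun i => (hgq i s).symm
          rw [h2]
          have h3 := hf.mem (MvPolynomial.aeval A G) ⟨_, hG.aeval A hA⟩
            (by rw [hvalG e' G hG, hGx]; simp) s
          rw [eval_comp] at h3
          exact h3
        by_contra hs
        have hF : Differentiable ℂ (fun s => MvPolynomial.eval (fun i => g' i s) G) := eval_hol g' hg' G
        have hev : ∀ᶠ z in 𝓝 s, q z = 0 := by
          filter_upwards [hF.continuous.continuousAt.eventually_ne hs] with z hz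
          have h4 := h1 z
          rcases mul_eq_zero.1 h4 with h5 | h5
          · by_contra h6
            exact pow_ne_zero _ h6 h5
          · exact absurd h5 hz
        exact hq0 ((hq.differentiableOn.analyticOnNhd isOpen_univ).eqOn_zero_of_preconnected_of_eventuallyEq_zero
          isPreconnected_univ (Set.mem_univ s) hev (Set.mem_univ t0))
      · refine ⟨i, j, t, t', fun h1 => hij ?_⟩
        rw [hgq i t, hgq j t', hgq j t, hgq i t']
        linear_combination (q t * q t') * h1
    have h1 := hR2 g' hcurve t0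
    apply right_ne_zero_of_mul ht0
    have h2 : (fun i => g i t0) = fun i => q t0 * g' i t0 := funext fun i => hgq i t0
    rw [h2, eval_scale hR0, h1, mul_zero]

end Pool.Agent.N459.JS
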